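import Pool.Agent.Lib.MP_1a91b9_ntH2.Q1C
import Pool.Agent.Lib.MP_1a91b9_ntE.A.TopE
import Pool.Agent.Lib.MP_1a91b9_ntE.C.MainE
import Pool.Agent.Lib.MP_1a91b9_ntE.D.MomE
import Pool.Agent.Lib.MP_1a91b9_ntE.R.DensityAll
import Pool.Agent.Lib.MP_1a91b9_ntE.R.OK

/-!
# MP_1a91b9_nt (TwistDensity), all classes: the assembly of Q1
-/

set_option autoImplicit false

namespace Pool.Agent.Lib.MP_1a91b9_ntE

open NumberField IsDedekindDomain Finset Pool.Agent.Lib.MP_1a91b9_ntT Pool.Agent.Lib.MP_1a91b9_ntH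
  Pool.Agent.Lib.MP_1a91b9_ntH2

noncomputable section

private theorem q1E_cube (j : ℕ) (x : 𝓞 K) :
    ((wO ^ j * x : 𝓞 K) : K) ^ 3 = ((x : 𝓞 K) : K) ^ 3 := by
  have h : (wO ^ j * x) ^ 3 = x ^ 3 := by
    rw [mul_pow, ← pow_mul, mul_comm j 3, pow_mul]
    have h3 : wO ^ 3 = 1 := by linear_combination (wO - 1) * wO_quad
    rw [h3, one_pow, one_mul]
  have h1 := congrArg (fun y : 𝓞 K => (y : K)) h
  simpa using h1

/-- The density, in the class of `u` modulo `m`, `m` a divisor of `4`, of the squarefree `δ` with a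
property which holds for all the pairs with nonzero determinant. -/
theorem density_E {m u : 𝓞 K} (hm : m ∣ 4) (hu : ¬ (4 ∣ m ∧ 4 ∣ u)) (Pr : 𝓞 K → Prop)
    (hPr1 : ∀ (j : ℕ) (c : F4) (S : Finset Pq), ((tw c qd).M S).det ≠ 0 → Pr (wO ^ j * dlc c S))
    (hPr2 : ∀ (j : ℕ) (c : F4) (S : Finset Pq), (qE.NE c S).det ≠ 0 →
      Pr (2 * (wO ^ j * dlc c S)))
    (ε : ℝ) (hε : 0 < ε) :
    ∀ᶠ X : ℝ in Filter.atTop, (∏' i : ℕ, (1 + 1 / (2 : ℝ) ^ (2 * i + 1))⁻¹) - ε ≤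
      (Nat.card {δ : 𝓞 K // Squarefree δ ∧ m ∣ δ - u ∧ |Algebra.norm ℤ δ| ≤ X ∧ Pr δ} : ℝ) /
        (Nat.card {δ : 𝓞 K // Squarefree δ ∧ m ∣ δ - u ∧ |Algebra.norm ℤ δ| ≤ X} : ℝ) := by
  classical
  rw [cinf_form]
  refine density_mod4 (fun δ => m ∣ δ - u) (fun x y hxy => ?_) ?_ (Da.cinf - ε / 2) (Da.cinf - ε)
    (by linarith) (fun c S => ((tw c qd).M S).det ≠ 0) (fun c S => (qE.NE c S).det ≠ 0)
    (fun c d η hη => ?_) (fun c d η hη => ?_) Pr hPr1 hPr2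
  · have h4 := hm.trans hxy
    constructor
    · intro h
      have e : y - u = (x - u) - (x - y) := by ring
      rw [e]
      exact dvd_sub h h4
    · intro h
      have e : x - u = (y - u) + (x - y) := by ring
      rw [e]
      exact dvd_add h h4
  · by_cases h : (4 : 𝓞 K) ∣ u
    · refine ⟨u + m, ⟨1, by ring⟩, fun h1 => hu ⟨?_, h⟩⟩
      exact (dvd_add_right h).1 h1
    · exact ⟨u, by rw [sub_self]; exact dvd_zero _, h⟩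
  · obtain ⟨X₀, h⟩ := Db.density2 qd_OK c (show Da.cinf - ε / 2 < Da.cinf by linarith) η hη
    exact ⟨X₀, fun X hX => h X hX d⟩
  · obtain ⟨X₀, h⟩ := Dc.densityE qE_OK c (show Da.cinf - ε / 2 < Da.cinf by linarith) η hη
    exact ⟨X₀, fun X hX => h X hX d⟩

/-- The property of Q1. -/
def PrQ (δ : 𝓞 K) : Prop := ∀ W : WeierstrassCurve K, W = ⟨0, 0, 0, 0, (δ : K) ^ 3⟩ →
  (∃ g : ℂ → ℂ, Differentiable ℂ g ∧ (∀ s : ℂ, 3 / 2 < s.re → g s = W.LSeries s) ∧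
    g 1 ≠ 0) ∧ Finite W.toAffine.Point

private theorem q1E_odd (j : ℕ) (c : F4) (S : Finset Pq) (h : ((tw c qd).M S).det ≠ 0) :
    PrQ (wO ^ j * dlc c S) := by
  rintro W rfl
  rw [q1E_cube]
  exact ⟨lvalue_mainc c S h, MP_1a91b9_ntH2.C.finite_dlc c S h rfl⟩

private theorem q1E_even (j : ℕ) (c : F4) (S : Finset Pq) (h : (qE.NE c S).det ≠ 0) :
    PrQ (2 * (wO ^ j * dlc c S)) := by
  rintro W rfl
  have e : (2 : 𝓞 K) * (wO ^ j * dlc c S) = wO ^ j * (2 * dlc c S) := by ring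
  rw [e, q1E_cube]
  exact ⟨lvalue_maine c S h, (C.pointsE c S h rfl).1⟩

theorem main_q1E' {m u : 𝓞 K} (hm : m ∣ 4) (hu : ¬ (4 ∣ m ∧ 4 ∣ u)) (ε : ℝ) (hε : 0 < ε) :
    ∀ᶠ X : ℝ in Filter.atTop, (∏' i : ℕ, (1 + 1 / (2 : ℝ) ^ (2 * i + 1))⁻¹) - ε ≤
      (Nat.card {δ : 𝓞 K // Squarefree δ ∧ m ∣ δ - u ∧ |Algebra.norm ℤ δ| ≤ X ∧ PrQ δ} : ℝ) /
        (Nat.card {δ : 𝓞 K // Squarefree δ ∧ m ∣ δ - u ∧ |Algebra.norm ℤ δ| ≤ X} : ℝ) :=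
  density_E hm hu PrQ q1E_odd q1E_even ε hε

theorem main_q1E (m u : 𝓞 (CyclotomicField 3 ℚ)) (hm : m ∣ 4) (hu : ¬ (4 ∣ m ∧ 4 ∣ u)) (ε : ℝ)
    (hε : 0 < ε) :
    ∀ᶠ X : ℝ in Filter.atTop,
    (∏' i : ℕ, (1 + 1 / (2 : ℝ) ^ (2 * i + 1))⁻¹) - ε ≤
      (Nat.card {δ : 𝓞 (CyclotomicField 3 ℚ) // Squarefree δ ∧ m ∣ δ - u ∧
        |Algebra.norm ℤ δ| ≤ X ∧
        ∀ W : WeierstrassCurve (CyclotomicField 3 ℚ), W = ⟨0, 0, 0, 0, (δ : CyclotomicField 3 ℚ) ^ 3⟩ →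
          (∃ g : ℂ → ℂ, Differentiable ℂ g ∧ (∀ s : ℂ, 3 / 2 < s.re → g s = W.LSeries s) ∧
            g 1 ≠ 0) ∧ Finite W.toAffine.Point} : ℝ) /
      (Nat.card {δ : 𝓞 (CyclotomicField 3 ℚ) // Squarefree δ ∧ m ∣ δ - u ∧
        |Algebra.norm ℤ δ| ≤ X} : ℝ) :=
  main_q1E' (m := m) (u := u) hm hu ε hε

end

end Pool.Agent.Lib.MP_1a91b9_ntE
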