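import Pool.Agent.Lib.MP_1a91b9_ntE.Q1E
import Pool.Agent.Lib.MP_1a91b9_ntH2.Q2C
import Pool.Agent.Lib.MP_1a91b9_ntE.A.RatE
import Pool.Agent.Lib.MP_1a91b9_ntE.C.PerE
import Pool.Agent.Lib.MP_1a91b9_ntE.C.TamD

/-!
# MP_1a91b9_nt (TwistDensity), all classes: the assembly of Q2

The 2-part of the formula for `y² = x³ + δ³`, `δ = 2 * dlc c S`, if the determinant of the matrix of the
even class `c` is not zero: `κ = CE c * vpE / 2` has `‖κ‖ ^ 2 = 2 ρ ‖ep‖ ^ 2` with `ρ = 9, 3, √3`, and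
`6 L / (Om κ 2 ^ #S) = nuE c S / em (DD S)` is a unit above `2`.
-/

set_option autoImplicit false

namespace Pool.Agent.Lib.MP_1a91b9_ntE

open NumberField IsDedekindDomain Finset Pool.Agent.Lib.MP_1a91b9_ntT Pool.Agent.Lib.MP_1a91b9_ntH
  Pool.Agent.Lib.MP_1a91b9_ntH2
open Pool.Agent.Lib.MP_1a91b9_ntH.C (cv two_prime)
open Pool.Agent.Lib.MP_1a91b9_ntT.S9 (tam)
open Pool.Agent.Lib.MP_1a91b9_ntT3.S9 (ShaP PPartQ)

noncomputable section

/-! ### The constants -/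

private theorem q2E_a : 4 * ‖Quarter_a‖ ^ 3 = 1 := by
  have h := Quarter_a_eq
  have h1 : 4 * Quarter_a ^ 3 = -1 := by linear_combination h
  have h2 := congrArg norm h1
  rw [norm_mul, norm_pow, norm_neg, norm_one] at h2
  norm_num at h2
  exact h2

private theorem q2E_nine {A : ValuationSubring ℂ} (hA : Two A) :
    A.valuation ((9 : ℝ) : ℂ) = 1 := by
  have e : ((9 : ℝ) : ℂ) = ((3 : ℝ) : ℂ) * ((3 : ℝ) : ℂ) := by norm_num
  rw [e, map_mul, val_three hA, one_mul]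

/-- The absolute value of the constant of the class `c`. -/
theorem norm_kaE (c : F4) : ∃ ρ : ℝ, 0 < ρ ∧
    (∀ A : ValuationSubring ℂ, Two A → A.valuation (ρ : ℂ) = 1) ∧
    ‖CE c * vpE / 2‖ ^ 2 = 2 * ρ * ‖ep‖ ^ 2 := by
  have ha := q2E_a
  have hae : ‖Quarter_a‖ = ‖ep‖ ^ 2 := norm_X_half.1
  have ha0 : ‖Quarter_a‖ ≠ 0 := norm_ne_zero_iff.2 Quarter_a_ne
  have h2 : ‖(2 : ℂ)‖ = 2 := by norm_num
  have h1 : ‖CE c * vpE / 2‖ ^ 2 = ‖CEs c‖ * ‖Quarter_a‖ ^ 2 := by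
    have h3 : ‖CE c‖ ^ 2 = ‖CEs c‖ := by rw [← norm_pow, CE_sq]
    rw [norm_div, norm_mul, vpE, norm_mul, h2, div_pow, mul_pow, mul_pow, h3]
    ring
  have hs3 : ‖(1 : ℂ) + 2 * MP_1a91b9_ntT.zt‖ = √3 := by
    rw [← PhiE_em_s3]
    exact RatD_norm_s3
  rw [h1, ← hae]
  have hcc : c = 0 ∨ c = 1 ∨ c = ⟨0, 1⟩ ∨ c = ⟨1, 1⟩ := by
    clear * -
    revert c
    decide
  rcases hcc with rfl | rfl | rfl | rfl
  · refine ⟨9, by norm_num, fun A hA => q2E_nine hA, ?_⟩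
    have e : CEs (0 : F4) = 72 * Quarter_a ^ 2 := by rw [CEs, if_pos rfl]
    have h72 : ‖(72 : ℂ)‖ = 72 := by norm_num
    rw [e, norm_mul, norm_pow, h72]
    linear_combination 18 * ‖Quarter_a‖ * ha
  · refine ⟨3, by norm_num, fun A hA => val_three hA, ?_⟩
    have e : CEs (1 : F4) = 24 * Quarter_a ^ 2 := by
      rw [CEs, if_neg (by decide), if_pos rfl]
    have h24 : ‖(24 : ℂ)‖ = 24 := by norm_num
    rw [e, norm_mul, norm_pow, h24]
    linear_combination 6 * ‖Quarter_a‖ * ha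
  · refine ⟨√3, by positivity, fun A hA => val_sqrt3 hA, ?_⟩
    have e : CEs (⟨0, 1⟩ : F4) = -2 * (1 + 2 * MP_1a91b9_ntT.zt) / Quarter_a := by
      rw [CEs, if_neg (by decide), if_neg (by decide), if_pos rfl]
    have h2' : ‖(-2 : ℂ)‖ = 2 := by norm_num
    rw [e, norm_div, norm_mul, h2', hs3]
    field_simp
  · refine ⟨√3, by positivity, fun A hA => val_sqrt3 hA, ?_⟩
    have e : CEs (⟨1, 1⟩ : F4) = 2 * (1 + 2 * MP_1a91b9_ntT.zt) / Quarter_a := by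
      rw [CEs, if_neg (by decide), if_neg (by decide), if_neg (by decide)]
    rw [e, norm_div, norm_mul, h2, hs3]
    field_simp

private theorem q2E_one {A : ValuationSubring ℂ} (hA : Two A) {d : 𝓞 K} (hd : (2 : 𝓞 K) ∣ d - 1) :
    A.valuation (em d) = 1 := by
  have h1 : A.valuation (em d - 1) < 1 := by
    have e : em d - 1 = em (d - 1) := by rw [RatA_sub, RatA_one]
    rw [e]
    exact em_lt hA hd
  have h2 : em d = 1 + (em d - 1) := by ring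
  rw [h2, Valuation.map_add_eq_of_lt_left _ (by rwa [map_one]), map_one]

/-- The value of `L` above `2`. -/
theorem val_LSe {c : F4} {S : Finset Pq} (h : (qE.NE c S).det ≠ 0) {A : ValuationSubring ℂ}
    (hA : Two A) : A.valuation (LSe c S 1 * 6 / (Om * (CE c * vpE / 2) * 2 ^ S.card)) = 1 := by
  have h1 := (nuE_res hA c S).unit hA h
  have h2 := q2E_one hA (DD_two S)
  have hD : em (DD S) ≠ 0 := RatA_ne (DD_ne S)
  have hO := Om_ne_zero
  have hC := CE_ne c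
  have hv : vpE ≠ 0 := vpE_ne
  have h24 : em (24 * DD S) = 24 * em (DD S) := by
    rw [RatA_mul]
    congr 1
    have := RatA_ofNat 24
    push_cast at this
    exact this
  have e : LSe c S 1 * 6 / (Om * (CE c * vpE / 2) * 2 ^ S.card) = nuE c S / em (DD S) := by
    rw [nuE, NNE, h24]
    have h3 : (2 : ℂ) ^ S.card ≠ 0 := pow_ne_zero _ two_ne_zero
    field_simp
    ring
  rw [e, map_div₀, h1, h2, div_one]

/-! ### The squarefree `δ` -/

theorem dlE_squarefree (c : F4) (S : Finset Pq) : Squarefree (2 * dlc c S) := by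
  rw [squarefree_mul_iff]
  refine ⟨(two_prime.irreducible.isRelPrime_iff_not_dvd).2 fun h => ?_, two_prime.squarefree,
    dlc_squarefree c S⟩
  have h1 : (2 : 𝓞 K) ∣ 1 := by
    have h2 := dvd_sub h (dlc_two c S)
    rwa [sub_sub_cancel] at h2
  exact two_prime.not_isUnit (isUnit_of_dvd_one h1)

theorem s3_dvd_dlE {c : F4} {S : Finset Pq} : s3 ∣ 2 * dlc c S ↔ (qd.A S + c).b ≠ 0 := by
  rw [← s3_dvd_dlc]
  constructor
  · intro h
    exact s3_odd.symm.dvd_of_dvd_mul_left h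
  · exact fun h => h.mul_left 2

private theorem q2E_if {c : F4} {S : Finset Pq} (x y : ℂ) [Decidable (s3 ∣ 2 * dlc c S)] :
    (if s3 ∣ 2 * dlc c S then x else y) = if (qd.A S + c).b = 0 then y else x := by
  by_cases h : (qd.A S + c).b = 0
  · rw [if_pos h, if_neg fun h1 => (s3_dvd_dlE.1 h1) h]
  · rw [if_neg h, if_pos (s3_dvd_dlE.2 h)]

private theorem q2E_ifN {c : F4} {S : Finset Pq} (x y : ℕ) [Decidable (s3 ∣ 2 * dlc c S)] :
    (if s3 ∣ 2 * dlc c S then x else y) = if (qd.A S + c).b = 0 then y else x := by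
  by_cases h : (qd.A S + c).b = 0
  · rw [if_pos h, if_neg fun h1 => (s3_dvd_dlE.1 h1) h]
  · rw [if_neg h, if_pos (s3_dvd_dlE.2 h)]

/-- **The 2-part of the formula**, for every even class. -/
theorem ppartQ_e (c : F4) (S : Finset Pq) (h : (qE.NE c S).det ≠ 0) :
    PPartQ 2 (cv ((2 * dlc c S : 𝓞 K) : K)) := by
  classical
  obtain ⟨hfin, ⟨m, hm, hcard⟩, hsha⟩ := C.pointsE c S h (W := cv ((2 * dlc c S : 𝓞 K) : K)) rfl
  obtain ⟨t, ht, hT⟩ := C.finprod_tam_e c S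
  obtain ⟨g, hgd, hgs, hg⟩ := lser_maine c S
  obtain ⟨ρ, hρ, hρA, hκ⟩ := norm_kaE c
  refine ppartQ_genE (δ := 2 * dlc c S) (d := dlc c S) (r := S.card) (dlE_squarefree c S) rfl
    (dlc_two c S) ep_cube hρ hρA hκ hgd hgs ?_ (fun A hA => val_LSe h hA) (LSe_ne h) hfin hm hcard
    ht ?_ hsha (crat_e c S)
  · rw [q2E_if]
    exact hg
  · rw [q2E_ifN]
    exact hT

/-- The Tamagawa numbers at the places not above `3` which divide `δ`. -/
theorem tam_dlE (c : F4) (S : Finset Pq) (v : HeightOneSpectrum (𝓞 K))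
    (hv : 2 * dlc c S ∈ v.asIdeal) (h3 : (3 : 𝓞 K) ∉ v.asIdeal) :
    tam (cv ((2 * dlc c S : 𝓞 K) : K)) v = 4 := by
  refine C.tam_e c S (fun hs => h3 (Ideal.mem_of_dvd _ s3_dvd_three hs)) ?_
  exact (v.valuation_lt_one_iff_mem _).2 hv

/-! ### The density -/

/-- The property of Q2. -/
def PrP (δ : 𝓞 K) : Prop := ∀ W : WeierstrassCurve K, W = ⟨0, 0, 0, 0, (δ : K) ^ 3⟩ →
  PPartQ 2 W ∧ Nat.card (ShaP 2 W) = 1 ∧
    ∀ v : HeightOneSpectrum (𝓞 K), δ ∈ v.asIdeal → (3 : 𝓞 K) ∉ v.asIdeal → tam W v = 4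

private theorem q2E_cube (j : ℕ) (x : 𝓞 K) :
    ((wO ^ j * x : 𝓞 K) : K) ^ 3 = ((x : 𝓞 K) : K) ^ 3 := by
  have h : (wO ^ j * x) ^ 3 = x ^ 3 := by
    rw [mul_pow, ← pow_mul, mul_comm j 3, pow_mul]
    have h3 : wO ^ 3 = 1 := by linear_combination (wO - 1) * wO_quad
    rw [h3, one_pow, one_mul]
  have h1 := congrArg (fun y : 𝓞 K => (y : K)) h
  simpa using h1

private theorem q2E_mem (j : ℕ) {x : 𝓞 K} {v : HeightOneSpectrum (𝓞 K)}
    (h : wO ^ j * x ∈ v.asIdeal) : x ∈ v.asIdeal := by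
  rcases v.isPrime.mem_or_mem h with h1 | h1
  · exact absurd (Ideal.eq_top_of_isUnit_mem _ h1 (isUnit_wO.pow j)) v.isPrime.ne_top
  · exact h1

private theorem q2E_odd (j : ℕ) (c : F4) (S : Finset Pq) (h : ((tw c qd).M S).det ≠ 0) :
    PrP (wO ^ j * dlc c S) := by
  rintro W rfl
  rw [q2E_cube]
  exact ⟨ppartQ_c c S h, MP_1a91b9_ntH2.C.sha_dlc c S h rfl,
    fun v hv h3 => tam_c c S v (q2E_mem j hv) h3⟩

private theorem q2E_even (j : ℕ) (c : F4) (S : Finset Pq) (h : (qE.NE c S).det ≠ 0) :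
    PrP (2 * (wO ^ j * dlc c S)) := by
  have e : (2 : 𝓞 K) * (wO ^ j * dlc c S) = wO ^ j * (2 * dlc c S) := by ring
  rw [e]
  rintro W rfl
  rw [q2E_cube]
  exact ⟨ppartQ_e c S h, (C.pointsE c S h rfl).2.2,
    fun v hv h3 => tam_dlE c S v (q2E_mem j hv) h3⟩

theorem main_q2E (m u : 𝓞 (CyclotomicField 3 ℚ)) (hm : m ∣ 4) (hu : ¬ (4 ∣ m ∧ 4 ∣ u)) (ε : ℝ)
    (hε : 0 < ε) :
    ∀ᶠ X : ℝ in Filter.atTop,
    (∏' i : ℕ, (1 + 1 / (2 : ℝ) ^ (2 * i + 1))⁻¹) - ε ≤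
      (Nat.card {δ : 𝓞 (CyclotomicField 3 ℚ) // Squarefree δ ∧ m ∣ δ - u ∧
        |Algebra.norm ℤ δ| ≤ X ∧
        ∀ W : WeierstrassCurve (CyclotomicField 3 ℚ), W = ⟨0, 0, 0, 0, (δ : CyclotomicField 3 ℚ) ^ 3⟩ →
          PPartQ 2 W ∧ Nat.card (ShaP 2 W) = 1 ∧
          ∀ v : HeightOneSpectrum (𝓞 (CyclotomicField 3 ℚ)), δ ∈ v.asIdeal → 3 ∉ v.asIdeal →
            tam W v = 4} : ℝ) /
      (Nat.card {δ : 𝓞 (CyclotomicField 3 ℚ) // Squarefree δ ∧ m ∣ δ - u ∧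
        |Algebra.norm ℤ δ| ≤ X} : ℝ) :=
  density_E (m := m) (u := u) hm hu PrP q2E_odd q2E_even ε hε

end

end Pool.Agent.Lib.MP_1a91b9_ntE
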